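import Pool.Agent.KS6_36.FDF.Main

set_option autoImplicit false
open Finset
open scoped Classical

/-! MP_8cac16_co: a sharp inequality, for every number of vertices and for vertex weights, for
Fon-der-Flaass 3-graphs. -/

namespace Pool.Agent.Results.MP_8cac16_co.SharpInequality

open Pool.Agent.KS6_36.FDF

/-- Let `R` be (the arc relation of) an oriented graph without induced oriented 4-cycle.
(1) A weighted inequality for all nonnegative vertex weights. (2) On `n` vertices with `e` arcs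
the Fon-der-Flaass 3-graph has at least `2 n ^ 3 / 27 - n ^ 2 / 2 + n / 3 + e / 2` edges.
(3) For the balanced blow-ups of the cyclic triangle (2) is an equality. -/
theorem result :
    (∀ (V : Type) [Fintype V] (R : V → V → Prop), IsOriented R → NoInducedC4 R →
      ∀ w : V → ℝ, (∀ v, 0 ≤ w v) →
        4 / 9 * (∑ v, w v) ^ 3 ≤ 6 * ∑ s ∈ edges R, ∏ v ∈ s, w v
          + 3 * ∑ u, ∑ v, (if u ≠ v ∧ ¬ R u v then w u ^ 2 * w v else 0) + ∑ v, w v ^ 3) ∧
    (∀ (V : Type) [Fintype V] (R : V → V → Prop), IsOriented R → NoInducedC4 R →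
      2 / 27 * (Fintype.card V : ℝ) ^ 3 - (Fintype.card V : ℝ) ^ 2 / 2
        + (Fintype.card V : ℝ) / 3 + (arcs R : ℝ) / 2 ≤ ((edges R).card : ℝ)) ∧
    (∀ m : ℕ, IsOriented (cyc m) ∧ NoInducedC4 (cyc m) ∧ arcs (cyc m) = 3 * m ^ 2 ∧
      (edges (cyc m)).card = m * (m - 1) * (2 * m - 1) ∧
      2 / 27 * (Fintype.card (Fin 3 × Fin m) : ℝ) ^ 3 -
        (Fintype.card (Fin 3 × Fin m) : ℝ) ^ 2 / 2
        + (Fintype.card (Fin 3 × Fin m) : ℝ) / 3 + (arcs (cyc m) : ℝ) / 2 =
          ((edges (cyc m)).card : ℝ)) := by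
  refine ⟨fun V _ R hO hC w hw => weighted R hO hC w hw,
    fun V _ R hO hC => unweighted R hO hC,
    fun m => ⟨cyc_oriented m, cyc_c4 m, cyc_arcs m, cyc_edges m, ?_⟩⟩
  have h := sum_one (cyc m) (cyc_oriented m)
  rw [cyc_H] at h
  have h2 : (Fintype.card (Fin 3 × Fin m) : ℝ) = 3 * m := by simp
  rw [h2] at h ⊢
  linarith

end Pool.Agent.Results.MP_8cac16_co.SharpInequality
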